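import Mathlib

/-!
# Colourings without bad edges: local structure

For a graph `G` and a colouring `c`, an edge inside a colour class is *bad* if no vertex of
another colour is adjacent to exactly one of its ends.  We study colourings with the least
number of bad edges in a graph without a clique of size (number of colours) + 2.
-/

set_option autoImplicit false

namespace Pool.Agent.Lib.MP_cc29fe_co

open Function

variable {V κ : Type*} (G : SimpleGraph V)

/-- The pair `x, y` is an edge inside a colour class which is not distinguished by a vertex of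
another colour. -/
def Bad (c : V → κ) (x y : V) : Prop :=
  G.Adj x y ∧ c x = c y ∧ ∀ w, c w ≠ c x → (G.Adj w x ↔ G.Adj w y)

/-- `z` is a vertex such that `x z` would be bad after recolouring `x` with the colour of `z`. -/
def Mp (c : V → κ) (x z : V) : Prop :=
  G.Adj x z ∧ ∀ w, c w ≠ c z → (G.Adj w z ↔ (G.Adj w x ∨ w = x))

variable {G}

theorem Bad.symm {c : V → κ} {x y : V} (h : Bad G c x y) : Bad G c y x :=
  ⟨h.1.symm, h.2.1.symm, fun w hw => (h.2.2 w (by rw [h.2.1]; exact hw)).symm⟩

section
variable [Fintype V]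

open Classical in
/-- The set of bad ordered pairs. -/
noncomputable def badSet (G : SimpleGraph V) (c : V → κ) : Finset (V × V) :=
  Finset.univ.filter (fun p => Bad G c p.1 p.2)

theorem mem_badSet {c : V → κ} {a b : V} : (a, b) ∈ badSet G c ↔ Bad G c a b := by
  simp [badSet]

/-- A colouring with the least number of bad edges. -/
def IsMin (G : SimpleGraph V) (c : V → κ) : Prop :=
  ∀ c' : V → κ, (badSet G c).card ≤ (badSet G c').card

theorem IsMin.absurd_of_subset {c c' : V → κ} (hc : IsMin G c) {x y : V} (hxy : Bad G c x y)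
    (hxy' : ¬ Bad G c' x y) (hsub : ∀ a b, Bad G c' a b → Bad G c a b) : False := by
  have h1 : badSet G c' ⊂ badSet G c := by
    refine ⟨fun p hp => ?_, fun h => ?_⟩
    · obtain ⟨a, b⟩ := p
      exact mem_badSet.2 (hsub a b (mem_badSet.1 hp))
    · exact hxy' (mem_badSet.1 (h (mem_badSet.2 hxy)))
  exact absurd (hc c') (not_le.2 (Finset.card_lt_card h1))

end

section flip
variable [DecidableEq V] {c : V → κ} {x y : V} {j : κ}

theorem flip_bad (h : Bad G c x y) (hj : j ≠ c x) {a b : V} (hab : Bad G (update c x j) a b) :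
    (Bad G c a b ∧ a ≠ x ∧ b ≠ x) ∨ (a = x ∧ c b = j ∧ Mp G c x b) ∨
      (b = x ∧ c a = j ∧ Mp G c x a) := by
  have key : ∀ {b : V}, Bad G (update c x j) x b → c b = j ∧ Mp G c x b := by
    intro b hb
    have hbx : b ≠ x := hb.1.ne'
    have hcb : c b = j := by
      have := hb.2.1
      rw [update_self, update_of_ne hbx] at this
      exact this.symm
    refine ⟨hcb, hb.1, fun w hw => ?_⟩
    by_cases hwx : w = x
    · subst hwx
      simp [hb.1]
    · have h2 := hb.2.2 w (by rw [update_self, update_of_ne hwx, ← hcb]; exact hw)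
      simp [hwx, h2]
  by_cases hax : a = x
  · subst hax
    exact Or.inr (Or.inl ⟨rfl, key hab⟩)
  by_cases hbx : b = x
  · subst hbx
    exact Or.inr (Or.inr ⟨rfl, key hab.symm⟩)
  refine Or.inl ⟨⟨hab.1, ?_, fun w hw => ?_⟩, hax, hbx⟩
  · have := hab.2.1
    rwa [update_of_ne hax, update_of_ne hbx] at this
  · have hcab : c a = c b := by
      have := hab.2.1
      rwa [update_of_ne hax, update_of_ne hbx] at this
    by_cases hwx : w = x
    · subst hwx
      by_cases hja : j = c a
      · have hyw : y ≠ w := h.1.ne'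
        have hcy : c y ≠ c a := by rw [← h.2.1]; exact hw
        have h1 := hab.2.2 y (by rw [update_of_ne hyw, update_of_ne hax]; exact hcy)
        have h2 := h.2.2 a (fun h' => hw h'.symm)
        have h3 := h.2.2 b (fun h' => hw (by rw [hcab, h']))
        rw [G.adj_comm w a, G.adj_comm w b, h2, h3, G.adj_comm a y, G.adj_comm b y]
        exact h1
      · exact hab.2.2 w (by rw [update_self, update_of_ne hax]; exact hja)
    · exact hab.2.2 w (by rw [update_of_ne hwx, update_of_ne hax]; exact hw)

end flip

section clique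
variable [Fintype κ]

theorem clique_contra (hG : G.CliqueFree (Fintype.card κ + 2)) (z : κ → V)
    (hz : ∀ j k, j ≠ k → G.Adj (z j) (z k)) {a a' : V} (haa : G.Adj a a')
    (ha : ∀ j, G.Adj a (z j)) (ha' : ∀ j, G.Adj a' (z j)) : False := by
  classical
  have hinj : Injective z := by
    intro j k hjk
    by_contra hne
    exact (hz j k hne).ne hjk
  have h1 : G.IsNClique (Fintype.card κ) (Finset.univ.image z) := by
    constructor
    · intro v hv w hw hvw
      simp only [Finset.coe_image, Finset.coe_univ, Set.image_univ, Set.mem_range] at hv hw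
      obtain ⟨j, rfl⟩ := hv
      obtain ⟨k, rfl⟩ := hw
      exact hz j k (fun h => hvw (by rw [h]))
    · rw [Finset.card_image_of_injective _ hinj, Finset.card_univ]
  have h2 : G.IsNClique (Fintype.card κ + 1) (insert a' (Finset.univ.image z)) :=
    h1.insert (by
      intro b hb
      simp only [Finset.mem_image, Finset.mem_univ, true_and] at hb
      obtain ⟨j, rfl⟩ := hb
      exact ha' j)
  have h3 : G.IsNClique (Fintype.card κ + 1 + 1)
      (insert a (insert a' (Finset.univ.image z))) :=
    h2.insert (by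
      intro b hb
      simp only [Finset.mem_insert, Finset.mem_image, Finset.mem_univ, true_and] at hb
      rcases hb with rfl | ⟨j, rfl⟩
      · exact haa
      · exact ha j)
  exact hG _ h3

end clique

section main
variable [Fintype V] [Fintype κ] {c : V → κ} {x y : V}

theorem M_exists (hc : IsMin G c) (h : Bad G c x y) {j : κ} (hj : j ≠ c x) :
    ∃ z, c z = j ∧ Mp G c x z := by
  classical
  by_contra hcon
  push Not at hcon
  refine hc.absurd_of_subset (c' := update c x j) h ?_ ?_
  · intro hb
    rcases flip_bad h hj hb with h1 | h1 | h1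
    · exact h1.2.1 rfl
    · exact hcon y h1.2.1 h1.2.2
    · exact hcon x h1.2.1 h1.2.2
  · intro a b hab
    rcases flip_bad h hj hab with h1 | h1 | h1
    · exact h1.1
    · exact absurd h1.2.2 (hcon b h1.2.1)
    · exact absurd h1.2.2 (hcon a h1.2.1)

/-- A system of vertices of all colours forming a clique, obtained from a bad pair. -/
theorem rep_exists (hc : IsMin G c) (h : Bad G c x y) :
    ∃ z : κ → V, z (c x) = x ∧ (∀ j, c (z j) = j) ∧ (∀ j, j ≠ c x → Mp G c x (z j)) ∧
      ∀ j k, j ≠ k → G.Adj (z j) (z k) := by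
  classical
  have h1 : ∀ j, ∃ z, c z = j ∧ (j ≠ c x → Mp G c x z) ∧ (j = c x → z = x) := by
    intro j
    by_cases hj : j = c x
    · exact ⟨x, hj.symm, fun h' => absurd hj h', fun _ => rfl⟩
    · obtain ⟨z, hz, hz'⟩ := M_exists hc h hj
      exact ⟨z, hz, fun _ => hz', fun h' => absurd h' hj⟩
  choose z hz1 hz2 hz3 using h1
  refine ⟨z, hz3 _ rfl, hz1, hz2, ?_⟩
  intro j k hjk
  by_cases hj : j = c x
  · have hk : k ≠ c x := fun h' => hjk (hj.trans h'.symm)
    rw [hz3 j hj]
    exact (hz2 k hk).1
  · by_cases hk : k = c x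
    · rw [hz3 k hk]
      exact (hz2 j hj).1.symm
    · exact ((hz2 k hk).2 (z j) (by rw [hz1, hz1]; exact hjk)).2 (Or.inl (hz2 j hj).1.symm)

/-- The neighbours of `x` of any given colour form an independent set. -/
theorem indep (hG : G.CliqueFree (Fintype.card κ + 2)) (hc : IsMin G c) (h : Bad G c x y)
    {a a' : V} (haa : c a = c a') (ha : G.Adj x a) (ha' : G.Adj x a') : ¬ G.Adj a a' := by
  classical
  intro hadj
  obtain ⟨z, hzx, hzc, hzM, hzadj⟩ := rep_exists hc h
  have hA : ∀ {a : V} {k : κ}, G.Adj x a → k ≠ c a → G.Adj a (z k) := by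
    intro a k hxa hk
    by_cases hkx : k = c x
    · rw [hkx, hzx]; exact hxa.symm
    · exact ((hzM k hkx).2 a (by rw [hzc]; exact hk.symm)).2 (Or.inl hxa.symm)
  by_cases hax : c a = c x
  · refine clique_contra hG z hzadj hadj ?_ ?_
    · intro k
      by_cases hk : k = c a
      · rw [hk, hax, hzx]; exact ha.symm
      · exact hA ha hk
    · intro k
      by_cases hk : k = c a'
      · rw [hk, ← haa, hax, hzx]; exact ha'.symm
      · exact hA ha' hk
  · -- replace `z (c a)` by `y`
    have hay : G.Adj a y := (h.2.2 a hax).1 ha.symm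
    have hay' : G.Adj a' y := (h.2.2 a' (by rw [← haa]; exact hax)).1 ha'.symm
    have hy : ∀ k, k ≠ c a → G.Adj y (z k) := by
      intro k hk
      by_cases hkx : k = c x
      · rw [hkx, hzx]; exact h.1.symm
      · have := (h.2.2 (z k) (by rw [hzc]; exact hkx)).1 (hzM k hkx).1.symm
        exact this.symm
    refine clique_contra hG (update z (c a) y) ?_ hadj ?_ ?_
    · intro j k hjk
      by_cases hj : j = c a
      · subst hj
        rw [update_self, update_of_ne hjk.symm]
        exact hy k hjk.symm
      · by_cases hk : k = c a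
        · subst hk
          rw [update_self, update_of_ne hjk]
          exact (hy j hjk).symm
        · rw [update_of_ne hj, update_of_ne hk]
          exact hzadj j k hjk
    · intro k
      by_cases hk : k = c a
      · rw [hk, update_self]; exact hay
      · rw [update_of_ne hk]; exact hA ha hk
    · intro k
      by_cases hk : k = c a
      · rw [hk, update_self]; exact hay'
      · rw [update_of_ne hk]; exact hA ha' (by rw [← haa]; exact hk)

end main

section swap
variable [DecidableEq V] {c : V → κ} {x y z : V}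

theorem swap_bad (hind : ∀ a a', c a = c a' → G.Adj x a → G.Adj x a' → ¬ G.Adj a a')
    (h : Bad G c x y) (hz : c z ≠ c x) (hM : Mp G c x z) {a b : V}
    (hab : Bad G (update (update c x (c z)) z (c x)) a b) :
    (Bad G c a b ∧ a ≠ x ∧ b ≠ x) ∨
      (a = z ∧ c b = c x ∧ G.Adj x b ∧ ∀ w, c w ≠ c x → w ≠ z → (G.Adj w z ↔ G.Adj w b)) ∨
      (b = z ∧ c a = c x ∧ G.Adj x a ∧ ∀ w, c w ≠ c x → w ≠ z → (G.Adj w z ↔ G.Adj w a)) := by
  set c' := update (update c x (c z)) z (c x) with hc'
  have hxz : x ≠ z := hM.1.ne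
  have c'x : c' x = c z := by rw [hc', update_of_ne hxz, update_self]
  have c'z : c' z = c x := by rw [hc', update_self]
  have c'w : ∀ w, w ≠ x → w ≠ z → c' w = c w := by
    intro w h1 h2
    rw [hc', update_of_ne h2, update_of_ne h1]
  have keyx : ∀ {b : V}, ¬ Bad G c' x b := by
    intro b hb
    have hbx : b ≠ x := hb.1.ne'
    by_cases hbz : b = z
    · subst hbz
      have := hb.2.1
      rw [c'x, c'z] at this
      exact hz this
    · have h1 : c z = c b := by
        have := hb.2.1
        rwa [c'x, c'w b hbx hbz] at this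
      have h2 := (hb.2.2 z (by rw [c'z, c'x]; exact hz.symm)).1 hM.1.symm
      exact hind z b h1 hM.1 hb.1 h2
  have keyz : ∀ {b : V}, Bad G c' z b →
      c b = c x ∧ G.Adj x b ∧ ∀ w, c w ≠ c x → w ≠ z → (G.Adj w z ↔ G.Adj w b) := by
    intro b hb
    have hbz : b ≠ z := hb.1.ne'
    have hbx : b ≠ x := by
      rintro rfl
      exact keyx hb.symm
    have h1 : c b = c x := by
      have := hb.2.1
      rw [c'z, c'w b hbx hbz] at this
      exact this.symm
    refine ⟨h1, ?_, ?_⟩
    · have h2 := (hM.2 b (by rw [h1]; exact hz.symm)).1 hb.1.symm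
      rcases h2 with h2 | h2
      · exact h2.symm
      · exact absurd h2 hbx
    · intro w hw hwz
      have hwx : w ≠ x := by rintro rfl; exact hw rfl
      exact hb.2.2 w (by rw [c'z, c'w w hwx hwz]; exact hw)
  by_cases hax : a = x
  · subst hax; exact absurd hab keyx
  by_cases hbx : b = x
  · subst hbx; exact absurd hab.symm keyx
  by_cases haz : a = z
  · subst haz; exact Or.inr (Or.inl ⟨rfl, keyz hab⟩)
  by_cases hbz : b = z
  · subst hbz; exact Or.inr (Or.inr ⟨rfl, keyz hab.symm⟩)
  have hcab : c a = c b := by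
    have := hab.2.1
    rwa [c'w a hax haz, c'w b hbx hbz] at this
  have hab3 : ∀ w, c' w ≠ c a → (G.Adj w a ↔ G.Adj w b) := by
    intro w hw
    exact hab.2.2 w (by rw [c'w a hax haz]; exact hw)
  refine Or.inl ⟨⟨hab.1, hcab, fun w hw => ?_⟩, hax, hbx⟩
  by_cases hwx : w = x
  · subst hwx
    by_cases hza : c z = c a
    · have hyw : y ≠ w := h.1.ne'
      have hyz : y ≠ z := by
        rintro rfl
        exact hz h.2.1.symm
      have h1 := hab3 y (by rw [c'w y hyw hyz, ← h.2.1]; exact hw)
      have h2 := h.2.2 a (fun h' => hw h'.symm)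
      have h3 := h.2.2 b (fun h' => hw (by rw [hcab, h']))
      rw [G.adj_comm w a, G.adj_comm w b, h2, h3, G.adj_comm a y, G.adj_comm b y]
      exact h1
    · exact hab3 w (by rw [c'x]; exact hza)
  · by_cases hwz : w = z
    · subst hwz
      by_cases hxa : c x = c a
      · have h1 := hab3 x (by rw [c'x]; exact hw)
        have h2 := hM.2 a (fun h' => hw h'.symm)
        have h3 := hM.2 b (fun h' => hw (by rw [hcab, h']))
        rw [G.adj_comm w a, G.adj_comm w b, h2, h3]
        simp only [hax, hbx, or_false]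
        rw [G.adj_comm a x, G.adj_comm b x]
        exact h1
      · exact hab3 w (by rw [c'z]; exact hxa)
    · exact hab3 w (by rw [c'w w hwx hwz]; exact hw)

end swap

section main2
variable [Fintype V] [Fintype κ] {c : V → κ} {x y z : V}

theorem Y_exists (hG : G.CliqueFree (Fintype.card κ + 2)) (hc : IsMin G c) (h : Bad G c x y)
    (hz : c z ≠ c x) (hM : Mp G c x z) :
    ∃ u, c u = c x ∧ G.Adj x u ∧ ∀ w, c w ≠ c x → w ≠ z → (G.Adj w z ↔ G.Adj w u) := by
  classical
  have hind : ∀ a a', c a = c a' → G.Adj x a → G.Adj x a' → ¬ G.Adj a a' :=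
    fun a a' h1 h2 h3 => indep hG hc h h1 h2 h3
  by_contra hcon
  refine hc.absurd_of_subset (c' := update (update c x (c z)) z (c x)) h ?_ ?_
  · intro hb
    rcases swap_bad hind h hz hM hb with h1 | h1 | h1
    · exact h1.2.1 rfl
    · exact hcon ⟨y, h1.2⟩
    · exact hcon ⟨x, h1.2⟩
  · intro a b hab
    rcases swap_bad hind h hz hM hab with h1 | h1 | h1
    · exact h1.1
    · exact absurd ⟨b, h1.2⟩ hcon
    · exact absurd ⟨a, h1.2⟩ hcon

theorem M_unique (hG : G.CliqueFree (Fintype.card κ + 2)) (hc : IsMin G c) (h : Bad G c x y)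
    (hz : c z ≠ c x) (hM : Mp G c x z) {z' : V} (hz' : c z' = c z) (hM' : Mp G c x z') :
    z' = z := by
  by_contra hne
  obtain ⟨u, hu1, hu2, hu3⟩ := Y_exists hG hc h hz hM
  have h1 := hu3 z' (by rw [hz']; exact hz) hne
  have h2 : ¬ G.Adj z' z := indep hG hc h hz' hM'.1 hM.1
  have h3 : G.Adj u z' := (hM'.2 u (by rw [hu1, hz']; exact hz.symm)).2 (Or.inl hu2.symm)
  exact h2 (h1.2 h3.symm)

theorem flip_isBad [DecidableEq V] (hM : Mp G c x z) : Bad G (update c x (c z)) x z := by
  have hzx : z ≠ x := hM.1.ne'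
  refine ⟨hM.1, by rw [update_self, update_of_ne hzx], fun w hw => ?_⟩
  rw [update_self] at hw
  have hwx : w ≠ x := by
    rintro rfl
    rw [update_self] at hw
    exact hw rfl
  rw [update_of_ne hwx] at hw
  have := hM.2 w hw
  simp only [hwx, or_false] at this
  exact this.symm

theorem flip_isMin [DecidableEq V] (hG : G.CliqueFree (Fintype.card κ + 2)) (hc : IsMin G c)
    (h : Bad G c x y) (hz : c z ≠ c x) (hM : Mp G c x z) : IsMin G (update c x (c z)) := by
  classical
  intro c'
  refine le_trans ?_ (hc c')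
  have hsub : badSet G (update c x (c z)) ⊆
      (badSet G c \ {(x, y), (y, x)}) ∪ {(x, z), (z, x)} := by
    rintro ⟨a, b⟩ hab
    rw [mem_badSet] at hab
    rcases flip_bad h hz hab with ⟨h1, h2, h3⟩ | ⟨h1, h2, h3⟩ | ⟨h1, h2, h3⟩
    · rw [Finset.mem_union, Finset.mem_sdiff]
      left
      refine ⟨mem_badSet.2 h1, ?_⟩
      simp only [Finset.mem_insert, Prod.mk.injEq, Finset.mem_singleton, not_or, not_and]
      exact ⟨fun h' => absurd h' h2, fun _ h' => absurd h' h3⟩
    · rw [M_unique hG hc h hz hM h2 h3, h1]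
      simp
    · rw [M_unique hG hc h hz hM h2 h3, h1]
      simp
  refine (Finset.card_le_card hsub).trans ((Finset.card_union_le _ _).trans ?_)
  have hpair : ({(x, y), (y, x)} : Finset (V × V)) ⊆ badSet G c := by
    intro p hp
    simp only [Finset.mem_insert, Finset.mem_singleton] at hp
    rcases hp with rfl | rfl
    · exact mem_badSet.2 h
    · exact mem_badSet.2 h.symm
  have hne : (x, y) ≠ (y, x) := by
    intro h'
    exact h.1.ne (Prod.mk.inj h').1
  have h2 : ({(x, y), (y, x)} : Finset (V × V)).card = 2 := Finset.card_pair hne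
  have h3 : ({(x, z), (z, x)} : Finset (V × V)).card ≤ 2 := Finset.card_le_two
  have h4 := Finset.card_sdiff_of_subset hpair
  have h5 := Finset.card_le_card hpair
  omega

/-- A bad pair of a minimal colouring does not consist of twins. -/
theorem not_twins (hconn : G.Connected) (hG : G.CliqueFree (Fintype.card κ + 2))
    (hcard : Fintype.card κ + 2 ≤ Fintype.card V) (hc : IsMin G c) (h : Bad G c x y) :
    ¬ ∀ w, w ≠ x → w ≠ y → (G.Adj w x ↔ G.Adj w y) := by
  classical
  intro htw
  obtain ⟨z, hzx, hzc, hzM, hzadj⟩ := rep_exists hc h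
  -- neighbours of `x` of its colour
  have hNx : ∀ w, c w = c x → G.Adj x w → w = y := by
    intro w hw hxw
    by_contra hwy
    have h1 : G.Adj w y := (htw w hxw.ne' hwy).1 hxw.symm
    exact indep hG hc h (by rw [hw, h.2.1]) hxw h.1 h1
  have hNy : ∀ w, c w = c x → G.Adj y w → w = x := by
    intro w hw hyw
    by_contra hwx
    have h1 : G.Adj w x := (htw w hwx hyw.ne').2 hyw.symm
    exact hyw.ne' (hNx w hw h1.symm)
  -- `y` is in every `Y` set
  have hY : ∀ j, j ≠ c x → ∀ w, c w ≠ c x → w ≠ z j → (G.Adj w (z j) ↔ G.Adj w y) := by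
    intro j hj
    obtain ⟨u, hu1, hu2, hu3⟩ := Y_exists hG hc h (by rw [hzc]; exact hj) (hzM j hj)
    have : u = y := hNx u hu1 hu2
    rw [← this]
    exact hu3
  -- neighbours of `x` of colour `j`
  have hNj : ∀ j, j ≠ c x → ∀ w, c w = j → G.Adj x w → w = z j := by
    intro j hj w hw hxw
    by_contra hne
    have hwx : c w ≠ c x := by rw [hw]; exact hj
    have h1 : G.Adj w y := (h.2.2 w hwx).1 hxw.symm
    have h2 : G.Adj w (z j) := (hY j hj w hwx hne).2 h1
    exact indep hG hc h (by rw [hw, hzc]) hxw (hzM j hj).1 h2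
  -- the set is closed under adjacency
  let S : Set V := {w | w = y ∨ ∃ j, w = z j}
  have hxS : x ∈ S := Or.inr ⟨c x, hzx.symm⟩
  have hclosed : ∀ v ∈ S, ∀ w, G.Adj v w → w ∈ S := by
    have hx' : ∀ w, G.Adj x w → w ∈ S := by
      intro w hw
      by_cases hcw : c w = c x
      · exact Or.inl (hNx w hcw hw)
      · exact Or.inr ⟨c w, hNj (c w) hcw w rfl hw⟩
    have hy' : ∀ w, G.Adj y w → w ∈ S := by
      intro w hw
      by_cases hwx : w = x
      · rw [hwx]; exact hxS
      · exact hx' w ((htw w hwx hw.ne').2 hw.symm).symm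
    rintro v (rfl | ⟨j, rfl⟩) w hvw
    · exact hy' w hvw
    · by_cases hj : j = c x
      · rw [hj, hzx] at hvw
        exact hx' w hvw
      · by_cases hcw : c w = j
        · -- colour `j`
          have hwx : c w ≠ c x := by rw [hcw]; exact hj
          have h1 : G.Adj w y := (hY j hj w hwx hvw.ne').1 hvw.symm
          exact hy' w h1.symm
        · have h1 := (hzM j hj).2 w (by rw [hzc]; exact hcw)
          rcases h1.1 hvw.symm with h2 | h2
          · exact hx' w h2.symm
          · rw [h2]; exact hxS
  have hall : ∀ w, w ∈ S := by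
    intro w
    obtain ⟨p⟩ := hconn.preconnected x w
    have : ∀ {a b : V} (p : G.Walk a b), a ∈ S → b ∈ S := by
      intro a b p
      induction p with
      | nil => exact id
      | cons h1 _ ih => exact fun ha => ih (hclosed _ ha _ h1)
    exact this p hxS
  -- count
  let f : Option κ → V := fun o => o.elim y z
  have hf : Surjective f := by
    intro w
    rcases hall w with rfl | ⟨j, rfl⟩
    · exact ⟨none, rfl⟩
    · exact ⟨some j, rfl⟩
  have h1 := Fintype.card_le_of_surjective f hf
  rw [Fintype.card_option] at h1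
  omega

end main2

end Pool.Agent.Lib.MP_cc29fe_co
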