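import Pool.Agent.Lib.MP_cc29fe_co.Local

/-!
# Colourings without bad edges: the two-colour walk
-/

set_option autoImplicit false

namespace Pool.Agent.Lib.MP_cc29fe_co

open Function

variable {V κ : Type*} {G : SimpleGraph V}

theorem two_colors {i j a b d : κ} (ha : a = i ∨ a = j) (hb : b = i ∨ b = j)
    (hd : d = i ∨ d = j) (hab : a ≠ b) (hdb : d ≠ b) : a = d := by
  rcases ha with rfl | rfl <;> rcases hb with rfl | rfl <;> rcases hd with rfl | rfl <;>
    simp_all

/-- A sequence of minimal colourings `c n` with bad pairs `p n, p (n+1)`, in which `c (n+1)` is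
obtained from `c n` by recolouring `p (n+1)`, all within the two colours `i, j`. -/
structure WalkData [Fintype V] [DecidableEq V] (G : SimpleGraph V) (i j : κ)
    (c : ℕ → V → κ) (p : ℕ → V) : Prop where
  isMin : ∀ n, IsMin G (c n)
  bad : ∀ n, Bad G (c n) (p n) (p (n + 1))
  mp : ∀ n, Mp G (c n) (p (n + 1)) (p (n + 2))
  ne : ∀ n, c n (p (n + 2)) ≠ c n (p (n + 1))
  upd : ∀ n, c (n + 1) = update (c n) (p (n + 1)) (c n (p (n + 2)))
  col : ∀ n, c n (p n) = i ∨ c n (p n) = j
  col2 : ∀ n, c n (p (n + 2)) = i ∨ c n (p (n + 2)) = j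

section exist
variable [Fintype V] [Fintype κ] [DecidableEq V]

theorem walk_exists (hG : G.CliqueFree (Fintype.card κ + 2)) {c₀ : V → κ} (hc : IsMin G c₀)
    {x y : V} (h : Bad G c₀ x y) {j : κ} (hj : j ≠ c₀ x) :
    ∃ (c : ℕ → V → κ) (p : ℕ → V), WalkData G (c₀ x) j c p := by
  classical
  let State := {s : (V → κ) × V × V // IsMin G s.1 ∧ Bad G s.1 s.2.1 s.2.2 ∧
    (s.1 s.2.1 = c₀ x ∨ s.1 s.2.1 = j)}
  have hstep : ∀ s : State, ∃ s' : State, s'.1.2.1 = s.1.2.2 ∧
      Mp G s.1.1 s.1.2.2 s'.1.2.2 ∧ s.1.1 s'.1.2.2 ≠ s.1.1 s.1.2.2 ∧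
      s'.1.1 = update s.1.1 s.1.2.2 (s.1.1 s'.1.2.2) ∧
      (s.1.1 s'.1.2.2 = c₀ x ∨ s.1.1 s'.1.2.2 = j) := by
    rintro ⟨⟨c, a, b⟩, hmin, hbad, hcol⟩
    simp only at hmin hbad hcol ⊢
    -- the other colour
    obtain ⟨k, hk1, hk2⟩ : ∃ k, k ≠ c b ∧ (k = c₀ x ∨ k = j) := by
      by_cases hb : c b = c₀ x
      · exact ⟨j, by rw [hb]; exact hj, Or.inr rfl⟩
      · exact ⟨c₀ x, fun h' => hb h'.symm, Or.inl rfl⟩
    obtain ⟨z, hz1, hz2⟩ := M_exists hmin hbad.symm hk1
    have hzb : c z ≠ c b := by rw [hz1]; exact hk1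
    refine ⟨⟨(update c b (c z), b, z), flip_isMin hG hmin hbad.symm hzb hz2,
      flip_isBad hz2, ?_⟩, rfl, hz2, hzb, rfl, ?_⟩
    · simp only [update_self]
      rw [hz1]; exact hk2
    · rw [hz1]; exact hk2
  choose f hf using hstep
  let s₀ : State := ⟨(c₀, x, y), hc, h, Or.inl rfl⟩
  let S : ℕ → State := fun n => Nat.rec s₀ (fun _ s => f s) n
  have hS : ∀ n, S (n + 1) = f (S n) := fun n => rfl
  refine ⟨fun n => (S n).1.1, fun n => (S n).1.2.1, ?_⟩
  have hp : ∀ n, (S (n + 1)).1.2.1 = (S n).1.2.2 := fun n => by rw [hS]; exact (hf _).1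
  constructor
  · intro n; exact (S n).2.1
  · intro n
    have := (S n).2.2.1
    rw [← hp n] at this
    exact this
  · intro n
    have := (hf (S n)).2.1
    rw [← hS, ← hp n, ← hp (n + 1)] at this
    exact this
  · intro n
    have := (hf (S n)).2.2.1
    rw [← hS, ← hp n, ← hp (n + 1)] at this
    exact this
  · intro n
    have := (hf (S n)).2.2.2.1
    rw [← hS, ← hp n, ← hp (n + 1)] at this
    exact this
  · intro n; exact (S n).2.2.2
  · intro n
    have := (hf (S n)).2.2.2.2
    rw [← hS, ← hp (n + 1)] at this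
    exact this

end exist

namespace WalkData

variable [Fintype V] [Fintype κ] [DecidableEq V] {i j : κ} {c : ℕ → V → κ} {p : ℕ → V}

omit [Fintype κ] in
theorem adj (W : WalkData G i j c p) (n : ℕ) : G.Adj (p n) (p (n + 1)) := (W.bad n).1

omit [Fintype κ] in
theorem step_ne (W : WalkData G i j c p) {n : ℕ} {w : V} (h : w ≠ p (n + 1)) :
    c (n + 1) w = c n w := by
  rw [W.upd n, update_of_ne h]

omit [Fintype κ] in
theorem step_eq (W : WalkData G i j c p) (n : ℕ) :
    c (n + 1) (p (n + 1)) = c n (p (n + 2)) := by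
  rw [W.upd n, update_self]

omit [Fintype κ] in
theorem col1 (W : WalkData G i j c p) (n : ℕ) : c n (p (n + 1)) = i ∨ c n (p (n + 1)) = j := by
  rw [← (W.bad n).2.1]; exact W.col n

omit [Fintype κ] in
theorem in_succ (W : WalkData G i j c p) {n : ℕ} {w : V} :
    (c (n + 1) w = i ∨ c (n + 1) w = j) ↔ (c n w = i ∨ c n w = j) := by
  by_cases h : w = p (n + 1)
  · subst h
    rw [W.step_eq n]
    exact ⟨fun _ => W.col1 n, fun _ => W.col2 n⟩
  · rw [W.step_ne h]

omit [Fintype κ] in
theorem in_iff (W : WalkData G i j c p) {n m : ℕ} {w : V} :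
    (c n w = i ∨ c n w = j) ↔ (c m w = i ∨ c m w = j) := by
  have h : ∀ n, (c n w = i ∨ c n w = j) ↔ (c 0 w = i ∨ c 0 w = j) := by
    intro n
    induction n with
    | zero => exact Iff.rfl
    | succ n ih => rw [W.in_succ, ih]
  rw [h n, h m]

omit [Fintype κ] in
theorem in_p (W : WalkData G i j c p) (n m : ℕ) : c n (p m) = i ∨ c n (p m) = j :=
  (W.in_iff (n := n) (m := m)).2 (W.col m)

omit [Fintype κ] in
theorem keep (W : WalkData G i j c p) {n m : ℕ} (hnm : n ≤ m) {w : V}
    (h : ∀ s, n < s → s ≤ m → p s ≠ w) : c m w = c n w := by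
  induction m, hnm using Nat.le_induction with
  | base => rfl
  | succ m hm ih =>
    rw [W.step_ne (h (m + 1) (by omega) le_rfl).symm]
    exact ih (fun s h1 h2 => h s h1 (by omega))

omit [Fintype κ] in
theorem flip_once (W : WalkData G i j c p) {n s m : ℕ} (hns : n < s) (hsm : s ≤ m)
    (h : ∀ s', n < s' → s' ≤ m → s' ≠ s → p s' ≠ p s) : c m (p s) ≠ c n (p s) := by
  obtain ⟨s, rfl⟩ : ∃ k, s = k + 1 := ⟨s - 1, by omega⟩
  have h1 : c m (p (s + 1)) = c (s + 1) (p (s + 1)) :=
    W.keep hsm (fun s' h1 h2 => h s' (by omega) h2 (by omega))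
  have h2 : c s (p (s + 1)) = c n (p (s + 1)) :=
    W.keep (by omega) (fun s' h1 h2 => h s' (by omega) (by omega) (by omega))
  rw [h1, W.step_eq, ← h2]
  exact W.ne s

theorem indep (W : WalkData G i j c p) (hG : G.CliqueFree (Fintype.card κ + 2)) (n : ℕ)
    {a a' : V} (haa : c n a = c n a') (ha : G.Adj (p (n + 1)) a) (ha' : G.Adj (p (n + 1)) a') :
    ¬ G.Adj a a' :=
  MP_cc29fe_co.indep hG (W.isMin n) (W.bad n).symm haa ha ha'

theorem K1 (W : WalkData G i j c p) (hG : G.CliqueFree (Fintype.card κ + 2)) {n : ℕ} {w : V}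
    (hadj : G.Adj w (p (n + 1))) : G.Adj w (p n) ↔ c n w ≠ c n (p (n + 1)) := by
  constructor
  · intro h1 h2
    exact W.indep hG n (by rw [h2, (W.bad n).2.1]) hadj.symm (W.adj n).symm h1
  · intro h1
    exact ((W.bad n).2.2 w (by rw [(W.bad n).2.1]; exact h1)).2 hadj

theorem K2 (W : WalkData G i j c p) (hG : G.CliqueFree (Fintype.card κ + 2)) {n : ℕ} {w : V}
    (hin : c n w = i ∨ c n w = j) (hadj : G.Adj w (p (n + 1))) :
    G.Adj w (p (n + 2)) ↔ c n w = c n (p (n + 1)) := by
  constructor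
  · intro h1
    by_contra h2
    have h3 : c n w = c n (p (n + 2)) := two_colors hin (W.col1 n) (W.col2 n) h2 (W.ne n)
    exact W.indep hG n h3 hadj.symm (W.mp n).1 h1
  · intro h1
    exact ((W.mp n).2 w (by rw [h1]; exact (W.ne n).symm)).2 (Or.inl hadj)

/-- adjacency at distance two along the walk -/
theorem adj2 (W : WalkData G i j c p) (hG : G.CliqueFree (Fintype.card κ + 2)) (n : ℕ) :
    G.Adj (p (n + 2)) (p n) :=
  (W.K1 hG (W.adj (n + 1)).symm).2 (W.ne n)

section period
variable {L : ℕ}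

/-- One step of the periodicity argument. -/
theorem per_step (W : WalkData G i j c p) (hG : G.CliqueFree (Fintype.card κ + 2))
    (hL : 2 ≤ L) (hmin : ∀ d, 0 < d → d < L → ∀ a, 1 ≤ a → p a ≠ p (a + d)) (t : ℕ)
    (ht : p (t + 1) = p (t + L + 1)) :
    (∀ w, (c t w = i ∨ c t w = j) → G.Adj w (p (t + 1)) →
      ∃ s, t + 2 ≤ s ∧ s ≤ t + L ∧ w = p s) ∧ p (t + 2) = p (t + L + 2) := by
  -- distinctness
  have hdist : ∀ s s', 1 ≤ s → s < s' → s' < s + L → p s ≠ p s' := by
    intro s s' h1 h2 h3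
    have := hmin (s' - s) (by omega) (by omega) s h1
    rwa [show s + (s' - s) = s' by omega] at this
  have hdist' : ∀ s s', 1 ≤ s → 1 ≤ s' → s ≠ s' → s' < s + L → s < s' + L → p s ≠ p s' := by
    intro s s' h1 h1' h2 h3 h4
    rcases lt_or_gt_of_ne h2 with h | h
    · exact hdist s s' h1 h h3
    · exact (hdist s' s h1' h h4).symm
  set t' := t + L with ht'
  have hq : c t' (p (t + 1)) ≠ c t (p (t + 1)) :=
    W.flip_once (by omega) (by omega)
      (fun s' h1 h2 h3 => hdist' s' (t + 1) (by omega) (by omega) h3 (by omega) (by omega))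
  have hb : c t' (p (t + 2)) ≠ c t (p (t + 2)) :=
    W.flip_once (by omega) (by omega)
      (fun s' h1 h2 h3 => hdist' s' (t + 2) (by omega) (by omega) h3 (by omega) (by omega))
  -- abbreviations
  have hbq : G.Adj (p (t + 2)) (p (t + 1)) := (W.adj (t + 1)).symm
  have haq : G.Adj (p t) (p (t + 1)) := W.adj t
  have ha'q : G.Adj (p t') (p (t + 1)) := by rw [ht]; exact W.adj t'
  have hb'q : G.Adj (p (t' + 2)) (p (t + 1)) := by rw [ht]; exact (W.adj (t' + 1)).symm
  have hba : G.Adj (p (t + 2)) (p t) := W.adj2 hG t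
  -- comparison of the two times
  have cmp1 : ∀ w, (c t w = i ∨ c t w = j) → G.Adj w (p (t + 1)) → c t' w ≠ c t w →
      (G.Adj w (p t') ↔ G.Adj w (p t)) := by
    intro w hin hadj hw
    have h1 := W.K1 hG hadj
    have h2 := W.K1 hG (n := t') (w := w) (by rw [← ht]; exact hadj)
    rw [h1, h2, ← ht]
    have hin' : c t' w = i ∨ c t' w = j := W.in_iff.1 hin
    constructor
    · intro h3 h4
      exact h3 (two_colors hin' hin (W.in_p t' (t + 1)) hw (by rw [h4]; exact hq))
    · intro h3 h4
      exact h3 (two_colors hin hin' (W.in_p t (t + 1)) hw.symm (by rw [h4]; exact hq.symm))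
  have cmp2 : ∀ w, (c t w = i ∨ c t w = j) → G.Adj w (p (t + 1)) → c t' w = c t w →
      (G.Adj w (p t') ↔ G.Adj w (p (t + 2))) := by
    intro w hin hadj hw
    have h1 := W.K2 hG hin hadj
    have h2 := W.K1 hG (n := t') (w := w) (by rw [← ht]; exact hadj)
    rw [h1, h2, ← ht, hw]
    constructor
    · intro h3
      exact two_colors hin (W.in_p t' (t + 1)) (W.in_p t (t + 1)) h3 hq.symm
    · intro h3
      rw [h3]; exact hq.symm
  -- exactly one of the two neighbours, at each time
  have xor1 : ∀ w, (c t w = i ∨ c t w = j) → G.Adj w (p (t + 1)) →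
      (G.Adj w (p (t + 2)) ↔ ¬ G.Adj w (p t)) := by
    intro w hin hadj
    rw [W.K2 hG hin hadj, W.K1 hG hadj, not_not]
  have xor2 : ∀ w, (c t w = i ∨ c t w = j) → G.Adj w (p (t + 1)) →
      (G.Adj w (p (t' + 2)) ↔ ¬ G.Adj w (p t')) := by
    intro w hin hadj
    have hadj' : G.Adj w (p (t' + 1)) := by rw [← ht]; exact hadj
    rw [W.K2 hG (W.in_iff.1 hin) hadj', W.K1 hG hadj', not_not]
  -- no triangles among the neighbours with these colours
  have tri : ∀ u v w, (c t u = i ∨ c t u = j) → (c t v = i ∨ c t v = j) →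
      (c t w = i ∨ c t w = j) → G.Adj (p (t + 1)) u → G.Adj (p (t + 1)) v →
      G.Adj (p (t + 1)) w → G.Adj u v → G.Adj v w → G.Adj u w → False := by
    intro u v w hu hv hw h1 h2 h3 h4 h5 h6
    by_cases huv : c t u = c t v
    · exact W.indep hG t huv h1 h2 h4
    by_cases hvw : c t v = c t w
    · exact W.indep hG t hvw h2 h3 h5
    exact W.indep hG t (two_colors hu hv hw huv (fun h => hvw h.symm)) h1 h3 h6
  have hba' : G.Adj (p (t + 2)) (p t') :=
    (cmp1 _ (W.in_p t (t + 2)) hbq hb).2 hba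
  -- all changed, first half
  have half1 : ∀ w, (c t w = i ∨ c t w = j) → G.Adj w (p (t + 1)) → G.Adj w (p (t + 2)) →
      c t' w ≠ c t w := by
    intro w hin hadj hwb hw
    have h1 := (cmp2 w hin hadj hw).2 hwb
    exact tri w (p (t + 2)) (p t') hin (W.in_p _ _) (W.in_p _ _) hadj.symm hbq.symm ha'q.symm
      hwb hba' h1
  have haφ : c t' (p t) ≠ c t (p t) := half1 _ (W.col t) haq hba.symm
  have hab' : G.Adj (p t) (p (t' + 2)) := by
    rw [xor2 _ (W.col t) haq, cmp1 _ (W.col t) haq haφ]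
    exact fun h => h.ne rfl
  have half2 : ∀ w, (c t w = i ∨ c t w = j) → G.Adj w (p (t + 1)) → ¬ G.Adj w (p (t + 2)) →
      c t' w ≠ c t w := by
    intro w hin hadj hwb hw
    have h1 : ¬ G.Adj w (p t') := fun h => hwb ((cmp2 w hin hadj hw).1 h)
    have h2 : G.Adj w (p (t' + 2)) := (xor2 w hin hadj).2 h1
    have h3 : G.Adj w (p t) := by
      by_contra h4
      exact hwb ((xor1 w hin hadj).2 h4)
    exact tri w (p t) (p (t' + 2)) hin (W.in_p _ _) (W.in_p _ _) hadj.symm haq.symm hb'q.symm
      h3 hab' h2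
  have hall : ∀ w, (c t w = i ∨ c t w = j) → G.Adj w (p (t + 1)) →
      ∃ s, t + 2 ≤ s ∧ s ≤ t + L ∧ w = p s := by
    intro w hin hadj
    have hw : c t' w ≠ c t w := by
      by_cases h : G.Adj w (p (t + 2))
      · exact half1 w hin hadj h
      · exact half2 w hin hadj h
    by_contra hcon
    push Not at hcon
    refine hw (W.keep (by omega) (fun s h1 h2 h3 => ?_))
    by_cases hs : s = t + 1
    · subst hs
      rw [h3] at hadj
      exact hadj.ne rfl
    · exact hcon s (by omega) (by omega) h3.symm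
  refine ⟨hall, ?_⟩
  obtain ⟨s, hs1, hs2, hs3⟩ := hall (p (t' + 2)) (W.in_p _ _) hb'q
  by_cases hs : s = t + 2
  · rw [hs3, hs]
  · exact absurd hs3.symm (hdist' s (t' + 2) (by omega) (by omega) (by omega) (by omega) (by omega))

end period

/-- The walk leads to a colouring with fewer bad edges: contradiction. -/
theorem contradiction (W : WalkData G i j c p) (hconn : G.Connected)
    (hG : G.CliqueFree (Fintype.card κ + 2)) (hcard : Fintype.card κ + 2 ≤ Fintype.card V) :
    False := by
  classical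
  -- the minimal distance of a repetition
  have hex : ∃ d, 0 < d ∧ ∃ a, 1 ≤ a ∧ p a = p (a + d) := by
    obtain ⟨n, m, hnm, hpm⟩ := Finite.exists_ne_map_eq_of_infinite (fun n => p (n + 1))
    replace hpm : p (n + 1) = p (m + 1) := hpm
    rcases lt_or_gt_of_ne hnm with h | h
    · exact ⟨m - n, by omega, n + 1, by omega, by
        rw [hpm]; congr 1; omega⟩
    · exact ⟨n - m, by omega, m + 1, by omega, by
        rw [← hpm]; congr 1; omega⟩
  obtain ⟨hL0, a₀, ha₀, hpa₀⟩ := Nat.find_spec hex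
  set L := Nat.find hex with hLdef
  have hmin : ∀ d, 0 < d → d < L → ∀ a, 1 ≤ a → p a ≠ p (a + d) := by
    intro d h1 h2 a h3 h4
    exact Nat.find_min hex h2 ⟨h1, a, h3, h4⟩
  have hL1 : L ≠ 1 := by
    intro h
    rw [h] at hpa₀
    exact (W.adj a₀).ne hpa₀
  have hL : 2 ≤ L := by omega
  have hL3 : 3 ≤ L := by
    by_contra h
    have : L = 2 := by omega
    rw [this] at hpa₀
    exact (W.adj2 hG a₀).ne hpa₀.symm
  -- periodicity
  have hper : ∀ n, a₀ ≤ n → p n = p (n + L) := by
    intro n hn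
    induction n, hn using Nat.le_induction with
    | base => exact hpa₀
    | succ n hn ih =>
      obtain ⟨t, rfl⟩ : ∃ t, n = t + 1 := ⟨n - 1, by omega⟩
      have := (W.per_step hG hL hmin t (by rw [ih]; congr 1; omega)).2
      rw [this]; congr 1; omega
  have hclosed : ∀ n, a₀ ≤ n → ∀ m w, (c m w = i ∨ c m w = j) → G.Adj w (p n) →
      ∃ s, n + 1 ≤ s ∧ s < n + L ∧ w = p s := by
    intro n hn m w hin hadj
    obtain ⟨t, rfl⟩ : ∃ t, n = t + 1 := ⟨n - 1, by omega⟩
    have h1 := hper (t + 1) hn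
    obtain ⟨s, hs1, hs2, hs3⟩ :=
      (W.per_step hG hL hmin t (by rw [h1]; congr 1; omega)).1 w (W.in_iff.1 hin) hadj
    exact ⟨s, by omega, by omega, hs3⟩
  have hdist : ∀ s s', 1 ≤ s → 1 ≤ s' → s ≠ s' → s' < s + L → s < s' + L → p s ≠ p s' := by
    have hd : ∀ s s', 1 ≤ s → s < s' → s' < s + L → p s ≠ p s' := by
      intro s s' h1 h2 h3
      have := hmin (s' - s) (by omega) (by omega) s h1
      rwa [show s + (s' - s) = s' by omega] at this
    intro s s' h1 h1' h2 h3 h4
    rcases lt_or_gt_of_ne h2 with h | h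
    · exact hd s s' h1 h h3
    · exact (hd s' s h1' h h4).symm
  -- fix the time
  obtain ⟨T, hT⟩ : ∃ T, T = a₀ := ⟨_, rfl⟩
  have hT1 : 1 ≤ T := by omega
  set a := c T (p T) with ha
  set b := c T (p (T + 2)) with hb
  have ha1 : c T (p (T + 1)) = a := (W.bad T).2.1.symm
  have hba : b ≠ a := by rw [← ha1]; exact W.ne T
  have hain : a = i ∨ a = j := W.col T
  have hbin : b = i ∨ b = j := W.col2 T
  set x := p (T + 1) with hx
  set y := p T with hy
  set z := p (T + 2) with hz
  set u := p (T + 3) with hu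
  have hxy : G.Adj x y := (W.adj T).symm
  have hzx : G.Adj z x := (W.adj (T + 1)).symm
  have huz : G.Adj u z := (W.adj (T + 2)).symm
  have hux : G.Adj u x := W.adj2 hG (T + 1)
  -- colour of u
  have hcu : c T u = a := by
    have h1 : c (T + 1) u ≠ c (T + 1) z := W.ne (T + 1)
    rw [W.step_ne hux.ne, W.step_ne hzx.ne] at h1
    exact two_colors (W.in_p _ _) hbin hain h1 hba.symm
  have huy : ¬ G.Adj u y := by
    rw [W.K1 hG hux, not_not, hcu]
    exact ha1.symm
  have hney : u ≠ y := by
    intro huy'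
    -- then x and z are twins
    refine not_twins hconn hG hcard (W.isMin (T + 1)) (W.bad (T + 1)) ?_
    intro w hwx hwz
    by_cases hw : c T w = c T z
    · -- use y
      have h1 : G.Adj w y ↔ G.Adj w x :=
        (W.bad T).2.2 w (by rw [hw]; exact hba)
      have h2 := (W.mp (T + 1)).2 w (by
        rw [W.step_ne hwx, W.step_ne (hux.ne), hw]
        change b ≠ c T u
        rw [hcu]; exact hba)
      have hwz' : w ≠ z := hwz
      change G.Adj w u ↔ (G.Adj w z ∨ w = z) at h2
      simp only [hwz', or_false] at h2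
      rw [huy', h1] at h2
      exact h2
    · have h1 := (W.mp T).2 w hw
      change G.Adj w z ↔ (G.Adj w x ∨ w = x) at h1
      have hwx' : w ≠ x := hwx
      simp only [hwx', or_false] at h1
      exact h1.symm
  -- two points of the walk of colour b which are adjacent
  have hD : ∀ m m', T < m → m < m' → m' ≤ T + L → c T (p m) = b → c T (p m') = b →
      G.Adj (p m) (p m') → ∃ w, c T w = a ∧ w ≠ u ∧ G.Adj w (p m') ∧ ¬ G.Adj w (p m) := by
    intro m m' hm hmm hm' hcm hcm' hadj
    have hm1 : m ≠ T + 1 := by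
      rintro rfl
      exact hba (hcm.symm.trans ha1)
    have hm'L : m' ≠ T + L := by
      intro h
      rw [h, ← hper T (by omega)] at hcm'
      exact hba (hcm'.symm)
    obtain ⟨n, rfl⟩ : ∃ n, m' = n + 1 := ⟨m' - 1, by omega⟩
    have e1 : c n (p (n + 1)) = b := by
      rw [W.keep (n := T) (by omega)
        (fun s h1 h2 => hdist s (n + 1) (by omega) (by omega) (by omega) (by omega) (by omega)),
        hcm']
    have e2 : c n (p m) ≠ c T (p m) :=
      W.flip_once hm (by omega)
        (fun s h1 h2 h3 => hdist s m (by omega) (by omega) (by omega) (by omega) (by omega))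
    have e3 : c T (p (n + 2)) = c n (p (n + 2)) := by
      rw [W.keep (n := T) (m := n) (by omega)
        (fun s h1 h2 => hdist s (n + 2) (by omega) (by omega) (by omega) (by omega) (by omega))]
    refine ⟨p (n + 2), ?_, ?_, (W.adj (n + 1)).symm, ?_⟩
    · rw [e3]
      refine two_colors (W.in_p _ _) hbin hain ?_ hba.symm
      rw [← e1]; exact W.ne n
    · exact hdist (n + 2) (T + 3) (by omega) (by omega) (by omega) (by omega) (by omega)
    · rw [G.adj_comm, W.K2 hG (W.in_p _ _) hadj, e1, ← hcm]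
      exact e2
  -- recolour u
  have hc'u : update (c T) u b u = b := update_self ..
  have hc'w : ∀ w, w ≠ u → update (c T) u b w = c T w := fun w hw => update_of_ne hw ..
  -- no bad pair at u
  have hnou : ∀ v, ¬ Bad G (update (c T) u b) u v := by
    intro v hv
    have hvu : v ≠ u := hv.1.ne'
    have hcv : c T v = b := by
      have := hv.2.1
      rw [hc'u, hc'w v hvu] at this
      exact this.symm
    have h1 : G.Adj x u ↔ G.Adj x v :=
      hv.2.2 x (by rw [hc'u, hc'w x hux.ne']; change c T (p (T + 1)) ≠ b; rw [ha1]; exact hba.symm)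
    have h2 : G.Adj y u ↔ G.Adj y v :=
      hv.2.2 y (by rw [hc'u, hc'w y hney.symm]; exact hba.symm)
    have h3 : G.Adj v y ↔ G.Adj v x := (W.bad T).2.2 v (by rw [hcv]; exact hba)
    exact huy ((h2.2 (h3.2 (h1.1 hux.symm).symm).symm).symm)
  -- the membership of the neighbours of `u`
  have hmem : ∀ v, c T v = b → ∀ n, T < n → n ≤ T + L → G.Adj v (p n) →
      ∃ s, T < s ∧ s ≤ T + L ∧ v = p s := by
    intro v hv n hn1 hn2 hadj
    obtain ⟨s, hs1, hs2, hs3⟩ := hclosed n (by omega) T v (by rw [hv]; exact hbin) hadj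
    by_cases hs : s ≤ T + L
    · exact ⟨s, by omega, hs, hs3⟩
    · refine ⟨s - L, by omega, by omega, ?_⟩
      rw [hper (s - L) (by omega), hs3]
      congr 1; omega
  refine (W.isMin T).absurd_of_subset (c' := update (c T) u b) (W.bad T) ?_ ?_
  · intro hbad
    have h1 := hbad.2.2 u (by rw [hc'u, hc'w (p T) hney.symm]; exact hba)
    exact huy (h1.2 hux)
  · intro v v' hbad
    have hvu : v ≠ u := by rintro rfl; exact hnou _ hbad
    have hv'u : v' ≠ u := by rintro rfl; exact hnou _ hbad.symm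
    have hcvv : c T v = c T v' := by
      have := hbad.2.1
      rwa [hc'w v hvu, hc'w v' hv'u] at this
    have hbad3 : ∀ w, update (c T) u b w ≠ c T v → (G.Adj w v ↔ G.Adj w v') := by
      intro w hw
      exact hbad.2.2 w (by rw [hc'w v hvu]; exact hw)
    refine ⟨hbad.1, hcvv, fun w hw => ?_⟩
    by_cases hwu : w = u
    · subst hwu
      by_cases hcv : c T v = b
      · -- the essential case
        have key : ∀ v v', c T v = b → c T v' = b → G.Adj v v' → G.Adj u v → ¬ G.Adj u v' →
            (∀ w, c T w = a → w ≠ u → (G.Adj w v ↔ G.Adj w v')) → False := by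
          intro v v' hv hv' hvv' huv huv' hd
          by_cases hL3' : L = 3
          · -- then u = p (T + 3) = p T, impossible
            have := hper T (by omega)
            rw [hL3'] at this
            exact hney this.symm
          obtain ⟨m, hm1, hm2, hm3⟩ := hmem v hv (T + 3) (by omega) (by omega) huv.symm
          rw [hm3] at hvv'
          obtain ⟨m', hm1', hm2', hm3'⟩ := hmem v' hv' m hm1 hm2 hvv'.symm
          rw [hm3'] at hvv'
          have hmm : m ≠ m' := by
            rintro rfl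
            exact hvv'.ne rfl
          rcases lt_or_gt_of_ne hmm with hlt | hlt
          · obtain ⟨w, hw1, hw2, hw3, hw4⟩ := hD m m' hm1 hlt hm2' (by rw [← hm3]; exact hv)
              (by rw [← hm3']; exact hv') hvv'
            rw [← hm3] at hw4
            rw [← hm3'] at hw3
            exact hw4 ((hd w hw1 hw2).2 hw3)
          · obtain ⟨w, hw1, hw2, hw3, hw4⟩ := hD m' m hm1' hlt hm2 (by rw [← hm3']; exact hv')
              (by rw [← hm3]; exact hv) hvv'.symm
            rw [← hm3] at hw3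
            rw [← hm3'] at hw4
            exact hw4 ((hd w hw1 hw2).1 hw3)
        have hd : ∀ w, c T w = a → w ≠ u → (G.Adj w v ↔ G.Adj w v') := by
          intro w hw1 hw2
          exact hbad3 w (by rw [hc'w w hw2, hw1, hcv]; exact hba.symm)
        have hcv' : c T v' = b := by rw [← hcvv]; exact hcv
        constructor
        · intro h1
          by_contra h2
          exact key v v' hcv hcv' hbad.1 h1 h2 hd
        · intro h1
          by_contra h2
          exact key v' v hcv' hcv hbad.1.symm h1 h2 (fun w h3 h4 => (hd w h3 h4).symm)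
      · exact hbad3 _ (by rw [hc'u]; exact fun h => hcv h.symm)
    · exact hbad3 w (by rw [hc'w w hwu]; exact hw)

end WalkData

/-- **Main theorem.**  A connected graph without a clique on `card κ + 2` vertices, and with at
least `card κ + 2` vertices, has a colouring by `κ` without bad edges. -/
theorem exists_good_coloring [Fintype V] [Fintype κ] (hκ : 2 ≤ Fintype.card κ)
    (hconn : G.Connected) (hG : G.CliqueFree (Fintype.card κ + 2))
    (hcard : Fintype.card κ + 2 ≤ Fintype.card V) :
    ∃ c : V → κ, ∀ x y, ¬ Bad G c x y := by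
  classical
  have : Nonempty κ := Fintype.card_pos_iff.1 (by omega)
  obtain ⟨c, hc⟩ := Finite.exists_min (fun c : V → κ => (badSet G c).card)
  refine ⟨c, fun x y hxy => ?_⟩
  have : Nontrivial κ := Fintype.one_lt_card_iff_nontrivial.1 (by omega)
  obtain ⟨j, hj⟩ := exists_ne (c x)
  obtain ⟨c', p, W⟩ := walk_exists hG (fun c' => hc c') hxy hj
  exact W.contradiction hconn hG hcard

end Pool.Agent.Lib.MP_cc29fe_co
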